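import Mathlib
import Pool.Agent.H.MP_c8d476_an.A

open Set Filter Topology Complex MeasureTheory
open scoped ContDiff

namespace Pool.Agent.Results.MP_c8d476_an.Counter

/-- Complex tangent space at `z` of the level set of `ρ`. -/
def Tc {n c : ℕ} (ρ : (Fin n → ℂ) → Fin c → ℝ) (z : Fin n → ℂ) : Set (Fin n → ℂ) :=
  {v | fderiv ℝ ρ z v = 0 ∧ fderiv ℝ ρ z (I • v) = 0}

/-- Vector valued Levi form `D²ρ(v,v) + D²ρ(iv,iv)`. -/
noncomputable def Lev {n c : ℕ} (ρ : (Fin n → ℂ) → Fin c → ℝ) (z v : Fin n → ℂ) : Fin c → ℝ :=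
  fderiv ℝ (fun x => fderiv ℝ ρ x v) z v + fderiv ℝ (fun x => fderiv ℝ ρ x (I • v)) z (I • v)

open Pool.Agent.H.MP_c8d476_an in
theorem result : ∃ (n c d : ℕ) (ρ : (Fin n → ℂ) → Fin c → ℝ) (Θ : (Fin d → ℝ) → Fin n → ℂ)
    (f : (Fin n → ℂ) → Fin n → ℂ) (p₀ : Fin d → ℝ),
    AnalyticOnNhd ℝ ρ univ ∧ AnalyticOnNhd ℝ Θ univ ∧ IsEmbedding Θ ∧
    (∀ p, Function.Injective (fderiv ℝ Θ p)) ∧ range Θ = ρ ⁻¹' {0} ∧
    (∀ z ∈ ρ ⁻¹' {0}, (∀ y, ∃ v, fderiv ℝ ρ z v = 0 ∧ fderiv ℝ ρ z (I • v) = y) ∧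
      (∃ Γ : Set (Fin c → ℝ), IsClosed Γ ∧ Convex ℝ Γ ∧ (∀ t : ℝ, 0 ≤ t → ∀ y ∈ Γ, t • y ∈ Γ) ∧
        (∀ y ∈ Γ, -y ∈ Γ → y = 0) ∧ ∀ v ∈ Tc ρ z \ {0}, Lev ρ z v ∈ interior Γ) ∧
      (interior (convexHull ℝ (Lev ρ z '' (Tc ρ z \ {0})))).Nonempty) ∧
    MapsTo f (ρ ⁻¹' {0}) (ρ ⁻¹' {0}) ∧ ContinuousOn f (ρ ⁻¹' {0}) ∧
    (∀ (j : Fin n) (Z : (Fin d → ℝ) → Fin d → ℂ), ContDiff ℝ ∞ Z → HasCompactSupport Z →
      (∀ p, ∑ l, Z p l • fderiv ℝ Θ p (Pi.single l 1) = 0) →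
      ∫ p, f (Θ p) j * ∑ l, fderiv ℝ (fun q => Z q l) p (Pi.single l 1) = 0) ∧
    ¬ ContDiffAt ℝ 1 (f ∘ Θ) p₀ := by
  have L : ∀ z v, Lev ρ z v = ![-4 * normSq (v 0), -4 * normSq (v 1),
      -4 * (normSq (v 4) + normSq (v 5) + normSq (v 6))] := fun z v => by
    rw [Lev, ddρ, ddρ]; ext i; fin_cases i <;> simp <;> ring
  refine ⟨8, 3, 13, ρ, Θ, F, 0, fun z _ => aρ z, fun p _ => aΘ p, emb, inj, rng, fun z _ =>
    ⟨fun y => ⟨![0, 0, y 0, y 1, 0, 0, 0, y 2], ?_, ?_⟩, ?_, ?_⟩, maps,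
    cF.mono fun z h => mem h, fun j Z => cr j, notC1⟩
  · rw [dρ]; ext i; fin_cases i <;> simp [b]
  · rw [dρ]; ext i; fin_cases i <;> simp [b]
  · refine ⟨{y | ∀ i, y i + ∑ j, y j ≤ 0}, ?_, fun x hx y hy s t hs ht _ i => ?_,
      fun t ht y hy i => ?_, fun y h k => ?_, fun v hv => ?_⟩
    · rw [Set.ofPred_forall]
      exact isClosed_iInter fun i => isClosed_le (by fun_prop) continuous_const
    · have := add_nonpos (mul_nonpos_of_nonneg_of_nonpos hs (hx i))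
        (mul_nonpos_of_nonneg_of_nonpos ht (hy i))
      simp only [Fin.sum_univ_three, Pi.add_apply, Pi.smul_apply, smul_eq_mul] at this ⊢
      linarith
    · have := mul_nonpos_of_nonneg_of_nonpos ht (hy i)
      simp only [Fin.sum_univ_three, Pi.smul_apply, smul_eq_mul] at this ⊢
      linarith
    · have h0 := h 0
      have h1 := h 1
      have h2 := h 2
      have k0 := k 0
      have k1 := k 1
      have k2 := k 2
      simp only [Fin.sum_univ_three, Pi.neg_apply] at h0 h1 h2 k0 k1 k2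
      ext i
      fin_cases i <;> simp <;> linarith
    · refine interior_maximal (t := {y : Fin 3 → ℝ | ∀ i, y i + ∑ j, y j < 0}) (fun y h i => (h i).le) ?_ ?_
      · rw [Set.ofPred_forall]
        exact isOpen_iInter_of_finite fun i => isOpen_lt (by fun_prop) continuous_const
      have n := fun i => normSq_nonneg (v i)
      have : 0 < normSq (v 0) + normSq (v 1) + normSq (v 4) + normSq (v 5) + normSq (v 6) := by
        by_contra h
        have e : ∀ i, normSq (v i) ≤ 0 → v i = 0 := fun i h => normSq_eq_zero.1 (h.antisymm (n i))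
        have e0 := e 0 (by linarith [n 1, n 4, n 5, n 6])
        have e1 := e 1 (by linarith [n 0, n 4, n 5, n 6])
        have e4 := e 4 (by linarith [n 1, n 0, n 5, n 6])
        have e5 := e 5 (by linarith [n 1, n 4, n 0, n 6])
        have e6 := e 6 (by linarith [n 1, n 4, n 5, n 0])
        obtain ⟨⟨a, a'⟩, r⟩ := hv
        rw [dρ] at a a'
        simp [b, e0, e1, e4, e5, e6] at a a'
        refine r (funext fun i => ?_)
        fin_cases i <;> simp [e0, e1, e4, e5, e6, Complex.ext_iff, a, a']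
      intro i
      rw [L]
      fin_cases i <;> simp [Fin.sum_univ_three] <;> linarith [n 0, n 1, n 4, n 5, n 6]
  · refine ⟨fun _ => -1, interior_maximal (t := {y | ∀ i, y i < 0}) (fun y h =>
      subset_convexHull ℝ _ ?_) ?_ fun i => by norm_num⟩
    · obtain ⟨a, s⟩ : ∃ a : Fin 3 → ℝ, ∀ i, a i * a i = -y i / 4 :=
        ⟨_, fun i => Real.mul_self_sqrt (by linarith [h i])⟩
      refine ⟨![a 0, a 1, 2 * I * star (z 0) * a 0, 2 * I * star (z 1) * a 1, a 2, 0, 0,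
        2 * I * star (z 4) * a 2], ⟨⟨?_, ?_⟩, fun e => ?_⟩, ?_⟩
      · rw [dρ]; ext i; fin_cases i <;> simp [b] <;> ring
      · rw [dρ]; ext i; fin_cases i <;> simp [b] <;> ring
      · have : a 0 = 0 := by simpa using congrFun e 0
        have k := s 0
        rw [this] at k
        linarith [h 0]
      · rw [L]; ext i; fin_cases i <;> simp [s] <;> ring
    · rw [Set.ofPred_forall]
      exact isOpen_iInter_of_finite fun i => isOpen_lt (by fun_prop) continuous_const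

end Pool.Agent.Results.MP_c8d476_an.Counter
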